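import Pool.Agent.W872.SV.Stm

/-! Project SV (helper872), part NS (copy 2). -/

set_option autoImplicit false

open Finset

namespace Pool.Agent.W444.SV.NSb

theorem ns_bound (n t : ℕ) : W872.SV.NS n t * 15 ^ (n - t) ≤ 16 ^ n := by
  classical
  have h1 : (∑ s : Finset (Fin n), (1 : ℕ) ^ s.card * 15 ^ (Fintype.card (Fin n) - s.card)) =
      (1 + 15) ^ Fintype.card (Fin n) := Fintype.sum_pow_mul_eq_add_pow (Fin n) 1 15
  rw [Fintype.card_fin] at h1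
  have h2 : W872.SV.NS n t * 15 ^ (n - t) =
      ∑ s ∈ (univ.filter fun s : Finset (Fin n) => s.card ≤ t), 15 ^ (n - t) := by
    rw [sum_const, smul_eq_mul]
    unfold W872.SV.NS
    congr!
  have h3 : (∑ s ∈ (univ.filter fun s : Finset (Fin n) => s.card ≤ t), 15 ^ (n - t)) ≤
      ∑ s ∈ (univ.filter fun s : Finset (Fin n) => s.card ≤ t),
        (1 : ℕ) ^ s.card * 15 ^ (n - s.card) := by
    refine sum_le_sum fun s hs => ?_
    rw [mem_filter] at hs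
    rw [one_pow, one_mul]
    exact Nat.pow_le_pow_right (by norm_num) (by omega)
  have h4 : (∑ s ∈ (univ.filter fun s : Finset (Fin n) => s.card ≤ t),
        (1 : ℕ) ^ s.card * 15 ^ (n - s.card)) ≤
      ∑ s : Finset (Fin n), (1 : ℕ) ^ s.card * 15 ^ (n - s.card) :=
    sum_le_sum_of_subset (filter_subset _ _)
  rw [h2]
  calc _ ≤ _ := h3
    _ ≤ _ := h4
    _ = 16 ^ n := by rw [h1]

theorem num (k r : ℕ) (hk : 5 ≤ k) : 2 ^ (15 * (60 * k + r)) * 15 ^ 24 ≤ 15 ^ (236 * k + 4 * r) := by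
  have a0 : (2 : ℕ) ^ 230 ≤ 15 ^ 59 := by norm_num
  have a1 : (2 : ℕ) ^ 920 ≤ 15 ^ 236 := by
    calc (2 : ℕ) ^ 920 = (2 ^ 230) ^ 4 := by rw [← pow_mul]
      _ ≤ (15 ^ 59) ^ 4 := Nat.pow_le_pow_left a0 4
      _ = 15 ^ 236 := by rw [← pow_mul]
  have a2 : (15 : ℕ) ^ 24 ≤ 2 ^ 94 := by norm_num
  have a3 : (2 : ℕ) ^ 15 ≤ 15 ^ 4 := by norm_num
  calc 2 ^ (15 * (60 * k + r)) * 15 ^ 24 ≤ 2 ^ (15 * (60 * k + r)) * 2 ^ 94 :=
        Nat.mul_le_mul_left _ a2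
    _ = 2 ^ (900 * k + 94) * (2 ^ 15) ^ r := by
        rw [← pow_mul, ← pow_add, ← pow_add]; congr 1; ring
    _ ≤ 2 ^ (920 * k) * (2 ^ 15) ^ r :=
        Nat.mul_le_mul_right _ (Nat.pow_le_pow_right (by norm_num) (by omega))
    _ = (2 ^ 920) ^ k * (2 ^ 15) ^ r := by rw [← pow_mul 2 920 k]
    _ ≤ (15 ^ 236) ^ k * (15 ^ 4) ^ r :=
        Nat.mul_le_mul (Nat.pow_le_pow_left a1 k) (Nat.pow_le_pow_left a3 r)
    _ = 15 ^ (236 * k + 4 * r) := by rw [← pow_mul, ← pow_mul, ← pow_add]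

theorem main : W872.SV.PartNS := by
  refine ⟨300, fun n hn => ?_⟩
  obtain ⟨k, r, hr, rfl⟩ : ∃ k r, r < 60 ∧ n = 60 * k + r :=
    ⟨n / 60, n % 60, Nat.mod_lt _ (by norm_num), by omega⟩
  have hk : 5 ≤ k := by omega
  have ht : (60 * k + r) / 60 + 6 = k + 6 := by omega
  rw [ht]
  have h1 := ns_bound (60 * k + r) (k + 6)
  set X := W872.SV.NS (60 * k + r) (k + 6) with hX
  set m := 60 * k + r - (k + 6) with hm
  have h2 : 4 * m + 24 = 236 * k + 4 * r := by omega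
  have h3 := num k r hk
  rw [← h2, pow_add] at h3
  have h4 : 2 ^ (15 * (60 * k + r)) ≤ 15 ^ (4 * m) := Nat.le_of_mul_le_mul_right h3 (by positivity)
  have h5 : X ^ 4 * 15 ^ (4 * m) ≤ 2 ^ (60 * k + r) * 15 ^ (4 * m) := by
    calc X ^ 4 * 15 ^ (4 * m) = (X * 15 ^ m) ^ 4 := by
          rw [mul_pow, ← pow_mul, mul_comm m 4]
      _ ≤ (16 ^ (60 * k + r)) ^ 4 := Nat.pow_le_pow_left h1 4
      _ = 2 ^ (60 * k + r) * 2 ^ (15 * (60 * k + r)) := by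
          rw [show (16 : ℕ) = 2 ^ 4 by norm_num, ← pow_mul, ← pow_mul, ← pow_add]
          congr 1; ring
      _ ≤ 2 ^ (60 * k + r) * 15 ^ (4 * m) := Nat.mul_le_mul_left _ h4
  exact Nat.le_of_mul_le_mul_right h5 (by positivity)

end Pool.Agent.W444.SV.NSb
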